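import Mathlib

/-!
# MP_d4d41d_nt, Q1: all coefficients of `(q;q)_∞ / Ψ(-q², q)` from `q⁷` on are positive (true)

Let `c` be the coefficients of `1/Ψ(-q², q)`. The recurrence
`c(n) = c(n-1) + c(n-2) - c(n-5) + c(n-7) - c(n-12) - c(n-15) + …` propagates the bounds
`3/2 ≤ c(n)/c(n-1) ≤ 63/40` for `n ≥ 6`, and `∑_{j ≤ n} c(j) ≤ 3.1 c(n)`. The difference
`(q;q)_∞ - Ψ(-q², q)` is `2 q⁷` plus terms `d(e) q^e` with `e ≥ 12` and `|d(e)| ≤ 2`, so
`b(n) ≥ 2 c(n-7) - 2 ∑_{j ≤ n-12} c(j) > 0`.
-/

set_option autoImplicit false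

namespace Pool.Agent.Results.MP_d4d41d_nt.Full

open Finset

/-- the coefficient of `q^e` in the false theta function `Ψ(a, b)` with `a = -q²`, `b = q`:
the exponent of `a^(n(n+1)/2) b^(n(n-1)/2)` is `2 (n(n+1)/2) + n(n-1)/2`, its sign is
`(-1)^(n(n+1)/2)`, and the terms with `n < 0` are counted negatively. (All integers `n` whose
exponent is `e` satisfy `|n| ≤ e`, see `mem_of_exponent`.) -/
noncomputable def psi (e : ℕ) : ℤ :=
  ∑ n ∈ Finset.Icc (-(e : ℤ)) e,
    if 2 * (n * (n + 1) / 2) + n * (n - 1) / 2 = (e : ℤ) then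
      (if 0 ≤ n then 1 else -1) * (-1) ^ (n * (n + 1) / 2).natAbs else 0

/-- the false theta function `Ψ(-q², q)` -/
noncomputable def Psi : PowerSeries ℤ := PowerSeries.mk psi

/-- `(q;q)_∞`: the coefficient of `q^n` in the infinite product is that of the finite product of
the factors `1 - q^k`, `1 ≤ k ≤ n`. -/
noncomputable def qq : PowerSeries ℤ :=
  PowerSeries.mk fun n =>
    PowerSeries.coeff n (∏ k ∈ Finset.range n, (1 - (PowerSeries.X : PowerSeries ℤ) ^ (k + 1)))

lemma expo (n : ℤ) : 2 * (n * (n + 1) / 2) + n * (n - 1) / 2 = (pentagonal (-n) : ℤ) := by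
  have h1 : 2 * (n * (n + 1) / 2) = n * (n + 1) :=
    Int.two_mul_ediv_two_of_even (by rw [Int.even_mul]; grind)
  have h2 : 2 * (n * (n - 1) / 2) = n * (n - 1) :=
    Int.two_mul_ediv_two_of_even (by rw [Int.even_mul]; grind)
  have h3 := two_mul_natCast_pentagonal (-n)
  have h4 : 2 * (2 * (n * (n + 1) / 2) + n * (n - 1) / 2) = 2 * (pentagonal (-n) : ℤ) := by
    rw [h3, mul_add, h2, h1]
    ring
  omega

/-- the range of summation in `psi` is large enough -/
lemma mem_of_exponent (e : ℕ) (n : ℤ) (h : 2 * (n * (n + 1) / 2) + n * (n - 1) / 2 = (e : ℤ)) :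
    n ∈ Finset.Icc (-(e : ℤ)) e := by
  rw [expo] at h
  have h3 := two_mul_natCast_pentagonal (-n)
  rw [h] at h3
  rw [Finset.mem_Icc]
  constructor <;> nlinarith [sq_nonneg n, sq_nonneg (n + 1), sq_nonneg (n - 1),
    mul_self_nonneg (2 * n + 1), mul_self_nonneg (2 * n - 1)]

lemma abs_psi_le (e : ℕ) : |psi e| ≤ 1 := by
  unfold psi
  refine le_trans (Finset.abs_sum_le_sum_abs _ _) ?_
  have h1 : ∀ n ∈ Finset.Icc (-(e : ℤ)) e,
      |(if 2 * (n * (n + 1) / 2) + n * (n - 1) / 2 = (e : ℤ) then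
        (if 0 ≤ n then (1 : ℤ) else -1) * (-1) ^ (n * (n + 1) / 2).natAbs else 0)| =
      if 2 * (n * (n + 1) / 2) + n * (n - 1) / 2 = (e : ℤ) then 1 else 0 := by
    intro n _
    split_ifs <;> simp [abs_pow]
  rw [Finset.sum_congr rfl h1, ← Finset.sum_filter, Finset.sum_const, nsmul_eq_mul, mul_one]
  have h2 : (Finset.filter (fun n : ℤ => 2 * (n * (n + 1) / 2) + n * (n - 1) / 2 = (e : ℤ))
      (Finset.Icc (-(e : ℤ)) e)).card ≤ 1 := by
    rw [Finset.card_le_one]
    intro a ha b hb
    rw [Finset.mem_filter, expo] at ha hb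
    have h3 : pentagonal (-a) = pentagonal (-b) := by
      have := ha.2.trans hb.2.symm
      exact_mod_cast this
    have := pentagonal_injective h3
    omega
  exact_mod_cast h2

lemma coeff_qq (n : ℕ) : PowerSeries.coeff n qq = PowerSeries.coeff n (PowerSeries.pentagonalSeries ℤ) := by
  have h1 := PowerSeries.coeff_prod_one_sub_X_pow_eventually_eq ℤ n
  rw [Filter.eventually_atTop] at h1
  obtain ⟨s, hs⟩ := h1
  obtain ⟨N, hN⟩ : ∃ N, n ≤ N ∧ s ⊆ range N := by
    obtain ⟨N, hN⟩ := s.exists_nat_subset_range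
    exact ⟨max N n, le_max_right _ _, hN.trans (Finset.range_mono (le_max_left _ _))⟩
  rw [← hs (range N) hN.2]
  unfold qq
  rw [PowerSeries.coeff_mk]
  -- adding factors of large index does not change the coefficient
  obtain ⟨hN, -⟩ := hN
  induction N, hN using Nat.le_induction with
  | base => rfl
  | succ N hN ih =>
    rw [Finset.prod_range_succ, mul_sub, mul_one, map_sub, ih]
    rw [PowerSeries.coeff_mul_X_pow', if_neg (by omega), sub_zero]

lemma abs_qq_le (n : ℕ) : |PowerSeries.coeff n qq| ≤ 1 := by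
  rw [coeff_qq]
  by_cases h : n ∈ Set.range pentagonal
  · obtain ⟨k, rfl⟩ := h
    rw [PowerSeries.coeff_pentagonalSeries_pentagonal]
    simp [Int.coe_negOnePow]
  · rw [PowerSeries.coeff_pentagonalSeries_eq_zero ℤ h]
    simp

lemma pent_large (k : ℤ) (h : pentagonal k < 12) : -2 ≤ k ∧ k ≤ 2 := by
  have h1 := two_mul_natCast_pentagonal k
  constructor
  · by_contra hc
    push Not at hc
    nlinarith
  · by_contra hc
    push Not at hc
    nlinarith

lemma qq_vals : ∀ n < 12, PowerSeries.coeff n qq = if n = 0 ∨ n = 5 ∨ n = 7 then 1 else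
    if n = 1 ∨ n = 2 then -1 else 0 := by
  intro n hn
  rw [coeff_qq]
  have p0 : pentagonal 0 = 0 := by decide
  have p1 : pentagonal 1 = 1 := by decide
  have p2 : pentagonal (-1) = 2 := by decide
  have p3 : pentagonal 2 = 5 := by decide
  have p4 : pentagonal (-2) = 7 := by decide
  by_cases h : n ∈ Set.range pentagonal
  · obtain ⟨k, rfl⟩ := h
    rw [PowerSeries.coeff_pentagonalSeries_pentagonal]
    obtain ⟨h1, h2⟩ := pent_large k hn
    have h3 : k = -2 ∨ k = -1 ∨ k = 0 ∨ k = 1 ∨ k = 2 := by omega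
    rcases h3 with rfl | rfl | rfl | rfl | rfl
    · rw [p4]; simp [Int.negOnePow_def]
    · rw [p2]; simp [Int.negOnePow_def]
    · rw [p0]; simp
    · rw [p1]; simp
    · rw [p3]; simp [Int.negOnePow_def]
  · rw [PowerSeries.coeff_pentagonalSeries_eq_zero ℤ h]
    rw [if_neg, if_neg]
    · rintro (rfl | rfl)
      · exact h ⟨1, p1⟩
      · exact h ⟨-1, p2⟩
    · rintro (rfl | rfl | rfl)
      · exact h ⟨0, p0⟩
      · exact h ⟨2, p3⟩
      · exact h ⟨-2, p4⟩

lemma psi_vals : (List.range 21).map psi =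
    [1, -1, -1, 0, 0, 1, 0, -1, 0, 0, 0, 0, 1, 0, 0, 1, 0, 0, 0, 0, 0] := by
  decide +kernel

lemma psi_lt : psi 0 = 1 ∧ psi 1 = -1 ∧ psi 2 = -1 ∧ psi 3 = 0 ∧ psi 4 = 0 ∧ psi 5 = 1 ∧ psi 6 = 0 ∧
    psi 7 = -1 ∧ psi 8 = 0 ∧ psi 9 = 0 ∧ psi 10 = 0 ∧ psi 11 = 0 ∧ psi 12 = 1 ∧ psi 13 = 0 ∧
    psi 14 = 0 ∧ psi 15 = 1 ∧ psi 16 = 0 ∧ psi 17 = 0 ∧ psi 18 = 0 ∧ psi 19 = 0 ∧ psi 20 = 0 := by
  have h := psi_vals
  simpa [List.range_succ] using h

/-- partial sums -/
def S (c : ℕ → ℤ) (n : ℕ) : ℤ := ∑ j ∈ range (n + 1), c j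

section
variable (c : ℕ → ℤ) (h0 : c 0 = 1) (hr : ∀ n, 1 ≤ n → ∑ k ∈ range (n + 1), psi k * c (n - k) = 0)

include h0 hr in
lemma base : c 1 = 1 ∧ c 2 = 2 ∧ c 3 = 3 ∧ c 4 = 5 ∧ c 5 = 7 ∧ c 6 = 11 ∧ c 7 = 17 ∧ c 8 = 26 ∧
    c 9 = 40 ∧ c 10 = 62 ∧ c 11 = 96 ∧ c 12 = 147 ∧ c 13 = 227 ∧ c 14 = 349 ∧ c 15 = 536 ∧
    c 16 = 823 ∧ c 17 = 1265 ∧ c 18 = 1943 ∧ c 19 = 2984 ∧ c 20 = 4585 := by
  obtain ⟨p0, p1, p2, p3, p4, p5, p6, p7, p8, p9, p10, p11, p12, p13, p14, p15, p16, p17, p18, p19,
    p20⟩ := psi_lt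
  have c1 : c 1 = 1 := by
    have := hr 1 (by norm_num)
    simp only [Finset.sum_range_succ, Finset.sum_range_zero, p0, p1] at this
    norm_num [h0] at this
    linarith
  have c2 : c 2 = 2 := by
    have := hr 2 (by norm_num)
    simp only [Finset.sum_range_succ, Finset.sum_range_zero, p0, p1, p2] at this
    norm_num [h0, c1] at this
    linarith
  have c3 : c 3 = 3 := by
    have := hr 3 (by norm_num)
    simp only [Finset.sum_range_succ, Finset.sum_range_zero, p0, p1, p2, p3] at this
    norm_num [h0, c1, c2] at this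
    linarith
  have c4 : c 4 = 5 := by
    have := hr 4 (by norm_num)
    simp only [Finset.sum_range_succ, Finset.sum_range_zero, p0, p1, p2, p3, p4] at this
    norm_num [h0, c1, c2, c3] at this
    linarith
  have c5 : c 5 = 7 := by
    have := hr 5 (by norm_num)
    simp only [Finset.sum_range_succ, Finset.sum_range_zero, p0, p1, p2, p3, p4, p5] at this
    norm_num [h0, c1, c2, c3, c4] at this
    linarith
  have c6 : c 6 = 11 := by
    have := hr 6 (by norm_num)
    simp only [Finset.sum_range_succ, Finset.sum_range_zero, p0, p1, p2, p3, p4, p5, p6] at this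
    norm_num [h0, c1, c2, c3, c4, c5] at this
    linarith
  have c7 : c 7 = 17 := by
    have := hr 7 (by norm_num)
    simp only [Finset.sum_range_succ, Finset.sum_range_zero, p0, p1, p2, p3, p4, p5, p6, p7] at this
    norm_num [h0, c1, c2, c3, c4, c5, c6] at this
    linarith
  have c8 : c 8 = 26 := by
    have := hr 8 (by norm_num)
    simp only [Finset.sum_range_succ, Finset.sum_range_zero, p0, p1, p2, p3, p4, p5, p6, p7,
      p8] at this
    norm_num [h0, c1, c2, c3, c4, c5, c6, c7] at this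
    linarith
  have c9 : c 9 = 40 := by
    have := hr 9 (by norm_num)
    simp only [Finset.sum_range_succ, Finset.sum_range_zero, p0, p1, p2, p3, p4, p5, p6, p7,
      p8, p9] at this
    norm_num [h0, c1, c2, c3, c4, c5, c6, c7, c8] at this
    linarith
  have c10 : c 10 = 62 := by
    have := hr 10 (by norm_num)
    simp only [Finset.sum_range_succ, Finset.sum_range_zero, p0, p1, p2, p3, p4, p5, p6, p7,
      p8, p9, p10] at this
    norm_num [h0, c1, c2, c3, c4, c5, c6, c7, c8, c9] at this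
    linarith
  have c11 : c 11 = 96 := by
    have := hr 11 (by norm_num)
    simp only [Finset.sum_range_succ, Finset.sum_range_zero, p0, p1, p2, p3, p4, p5, p6, p7,
      p8, p9, p10, p11] at this
    norm_num [h0, c1, c2, c3, c4, c5, c6, c7, c8, c9, c10] at this
    linarith
  have c12 : c 12 = 147 := by
    have := hr 12 (by norm_num)
    simp only [Finset.sum_range_succ, Finset.sum_range_zero, p0, p1, p2, p3, p4, p5, p6, p7,
      p8, p9, p10, p11, p12] at this
    norm_num [h0, c1, c2, c3, c4, c5, c6, c7, c8, c9, c10, c11] at this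
    linarith
  have c13 : c 13 = 227 := by
    have := hr 13 (by norm_num)
    simp only [Finset.sum_range_succ, Finset.sum_range_zero, p0, p1, p2, p3, p4, p5, p6, p7,
      p8, p9, p10, p11, p12, p13] at this
    norm_num [h0, c1, c2, c3, c4, c5, c6, c7, c8, c9, c10, c11, c12] at this
    linarith
  have c14 : c 14 = 349 := by
    have := hr 14 (by norm_num)
    simp only [Finset.sum_range_succ, Finset.sum_range_zero, p0, p1, p2, p3, p4, p5, p6, p7,
      p8, p9, p10, p11, p12, p13, p14] at this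
    norm_num [h0, c1, c2, c3, c4, c5, c6, c7, c8, c9, c10, c11, c12, c13] at this
    linarith
  have c15 : c 15 = 536 := by
    have := hr 15 (by norm_num)
    simp only [Finset.sum_range_succ, Finset.sum_range_zero, p0, p1, p2, p3, p4, p5, p6, p7,
      p8, p9, p10, p11, p12, p13, p14, p15] at this
    norm_num [h0, c1, c2, c3, c4, c5, c6, c7, c8, c9, c10, c11, c12, c13, c14] at this
    linarith
  have c16 : c 16 = 823 := by
    have := hr 16 (by norm_num)
    simp only [Finset.sum_range_succ, Finset.sum_range_zero, p0, p1, p2, p3, p4, p5, p6, p7,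
      p8, p9, p10, p11, p12, p13, p14, p15, p16] at this
    norm_num [h0, c1, c2, c3, c4, c5, c6, c7, c8, c9, c10, c11, c12, c13, c14, c15] at this
    linarith
  have c17 : c 17 = 1265 := by
    have := hr 17 (by norm_num)
    simp only [Finset.sum_range_succ, Finset.sum_range_zero, p0, p1, p2, p3, p4, p5, p6, p7,
      p8, p9, p10, p11, p12, p13, p14, p15, p16, p17] at this
    norm_num [h0, c1, c2, c3, c4, c5, c6, c7, c8, c9, c10, c11, c12, c13, c14, c15, c16] at this
    linarith
  have c18 : c 18 = 1943 := by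
    have := hr 18 (by norm_num)
    simp only [Finset.sum_range_succ, Finset.sum_range_zero, p0, p1, p2, p3, p4, p5, p6, p7,
      p8, p9, p10, p11, p12, p13, p14, p15, p16, p17, p18] at this
    norm_num [h0, c1, c2, c3, c4, c5, c6, c7, c8, c9, c10, c11, c12, c13, c14, c15, c16, c17] at this
    linarith
  have c19 : c 19 = 2984 := by
    have := hr 19 (by norm_num)
    simp only [Finset.sum_range_succ, Finset.sum_range_zero, p0, p1, p2, p3, p4, p5, p6, p7,
      p8, p9, p10, p11, p12, p13, p14, p15, p16, p17, p18, p19] at this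
    norm_num [h0, c1, c2, c3, c4, c5, c6, c7, c8, c9, c10, c11, c12, c13, c14, c15, c16, c17,
      c18] at this
    linarith
  have c20 : c 20 = 4585 := by
    have := hr 20 (by norm_num)
    simp only [Finset.sum_range_succ, Finset.sum_range_zero, p0, p1, p2, p3, p4, p5, p6, p7,
      p8, p9, p10, p11, p12, p13, p14, p15, p16, p17, p18, p19, p20] at this
    norm_num [h0, c1, c2, c3, c4, c5, c6, c7, c8, c9, c10, c11, c12, c13, c14, c15, c16, c17,
      c18, c19] at this
    linarith
  exact ⟨c1, c2, c3, c4, c5, c6, c7, c8, c9, c10, c11, c12, c13, c14, c15, c16, c17, c18, c19, c20⟩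

lemma rest_bound (a : ℕ → ℤ) (M : ℤ) (ha : ∀ k, |a k| ≤ M) (n : ℕ) (hpos : ∀ j, j ≤ n → 0 ≤ c j)
    (K : ℕ) : |∑ k ∈ range (n + 1), a (K + k) * c (n - k)| ≤ M * S c n := by
  refine le_trans (Finset.abs_sum_le_sum_abs _ _) ?_
  unfold S
  rw [← Finset.sum_range_reflect c (n + 1), Finset.mul_sum]
  apply Finset.sum_le_sum
  intro k hk
  rw [Finset.mem_range] at hk
  rw [show n + 1 - 1 - k = n - k by omega, abs_mul, abs_of_nonneg (hpos (n - k) (by omega))]
  exact mul_le_mul_of_nonneg_right (ha _) (hpos (n - k) (by omega))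

include hr in
lemma rec_bound (n : ℕ) (hn : 16 ≤ n) (hpos : ∀ j, j ≤ n - 16 → 0 ≤ c j) :
    |c n - (c (n - 1) + c (n - 2) - c (n - 5) + c (n - 7) - c (n - 12) - c (n - 15))| ≤
      S c (n - 16) := by
  obtain ⟨p0, p1, p2, p3, p4, p5, p6, p7, p8, p9, p10, p11, p12, p13, p14, p15, -⟩ := psi_lt
  have h1 := hr n (by omega)
  have h2 : n + 1 = 16 + (n - 16 + 1) := by omega
  rw [h2, Finset.sum_range_add] at h1
  have h3 : ∑ x ∈ range 16, psi x * c (n - x) =
      c n - c (n - 1) - c (n - 2) + c (n - 5) - c (n - 7) + c (n - 12) + c (n - 15) := by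
    simp only [Finset.sum_range_succ, Finset.sum_range_zero, p0, p1, p2, p3, p4, p5, p6, p7,
      p8, p9, p10, p11, p12, p13, p14, p15]
    simp
    ring
  have h4 := rest_bound c psi 1 abs_psi_le (n - 16) hpos 16
  rw [h3] at h1
  have h5 : ∑ x ∈ range (n - 16 + 1), psi (16 + x) * c (n - (16 + x)) =
      ∑ x ∈ range (n - 16 + 1), psi (16 + x) * c (n - 16 - x) := by
    apply Finset.sum_congr rfl
    intro x _
    rw [Nat.sub_sub]
  rw [h5] at h1
  have h6 : c n - (c (n - 1) + c (n - 2) - c (n - 5) + c (n - 7) - c (n - 12) - c (n - 15)) =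
      -∑ x ∈ range (n - 16 + 1), psi (16 + x) * c (n - 16 - x) := by linarith
  rw [h6, abs_neg]
  linarith

lemma S_succ (n : ℕ) : S c (n + 1) = S c n + c (n + 1) := by
  unfold S
  rw [Finset.sum_range_succ]

include h0 hr in
lemma growth (n : ℕ) : 0 < c n ∧ 10 * S c n ≤ 31 * c n ∧
    (6 ≤ n → 3 * c (n - 1) ≤ 2 * c n ∧ 200 * c n ≤ 315 * c (n - 1)) := by
  induction n using Nat.strong_induction_on with
  | _ n ih =>
    obtain ⟨c1, c2, c3, c4, c5, c6, c7, c8, c9, c10, c11, c12, c13, c14, c15, c16, c17, c18, c19,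
      c20⟩ := base c h0 hr
    rcases Nat.lt_or_ge n 21 with h | h
    · have hsum : S c 0 = 1 := by simp [S, h0]
      interval_cases n
      all_goals
        simp only [S, Finset.sum_range_succ, Finset.sum_range_zero, h0, c1, c2, c3, c4, c5, c6, c7,
          c8, c9, c10, c11, c12, c13, c14, c15, c16, c17, c18, c19, c20]
        norm_num [h0, c1, c2, c3, c4, c5, c6, c7,
          c8, c9, c10, c11, c12, c13, c14, c15, c16, c17, c18, c19, c20]
    · obtain ⟨m, rfl⟩ : ∃ m, n = m + 16 := ⟨n - 16, by omega⟩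
      have hb := rec_bound c hr (m + 16) (by omega) (fun j hj => (ih j (by omega)).1.le)
      simp only [Nat.add_sub_cancel, show m + 16 - 1 = m + 15 by omega,
        show m + 16 - 2 = m + 14 by omega, show m + 16 - 5 = m + 11 by omega,
        show m + 16 - 7 = m + 9 by omega, show m + 16 - 12 = m + 4 by omega,
        show m + 16 - 15 = m + 1 by omega] at hb ⊢
      have i0 := ih m (by omega)
      have i1 := (ih (m + 1) (by omega)).2.2 (by omega)
      have i2 := (ih (m + 2) (by omega)).2.2 (by omega)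
      have i3 := (ih (m + 3) (by omega)).2.2 (by omega)
      have i4 := (ih (m + 4) (by omega)).2.2 (by omega)
      have i5 := (ih (m + 5) (by omega)).2.2 (by omega)
      have i6 := (ih (m + 6) (by omega)).2.2 (by omega)
      have i7 := (ih (m + 7) (by omega)).2.2 (by omega)
      have i8 := (ih (m + 8) (by omega)).2.2 (by omega)
      have i9 := (ih (m + 9) (by omega)).2.2 (by omega)
      have i10 := (ih (m + 10) (by omega)).2.2 (by omega)
      have i11 := (ih (m + 11) (by omega)).2.2 (by omega)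
      have i12 := (ih (m + 12) (by omega)).2.2 (by omega)
      have i13 := (ih (m + 13) (by omega)).2.2 (by omega)
      have i14 := (ih (m + 14) (by omega)).2.2 (by omega)
      have i15 := ih (m + 15) (by omega)
      simp only [show m + 1 - 1 = m by omega, show m + 2 - 1 = m + 1 by omega,
        show m + 3 - 1 = m + 2 by omega, show m + 4 - 1 = m + 3 by omega,
        show m + 5 - 1 = m + 4 by omega, show m + 6 - 1 = m + 5 by omega,
        show m + 7 - 1 = m + 6 by omega, show m + 8 - 1 = m + 7 by omega,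
        show m + 9 - 1 = m + 8 by omega, show m + 10 - 1 = m + 9 by omega,
        show m + 11 - 1 = m + 10 by omega, show m + 12 - 1 = m + 11 by omega,
        show m + 13 - 1 = m + 12 by omega, show m + 14 - 1 = m + 13 by omega,
        show m + 15 - 1 = m + 14 by omega] at i1 i2 i3 i4 i5 i6 i7 i8 i9 i10 i11 i12 i13 i14 i15
      obtain ⟨b1, b2⟩ := abs_le.1 hb
      have i15' := i15.2.2 (by omega)
      have hS := S_succ c (m + 15)
      obtain ⟨i0a, i0b, -⟩ := i0
      obtain ⟨i15a, i15b, -⟩ := i15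
      have r1 : 3 * c (m + 15) ≤ 2 * c (m + 16) := by linarith
      have r2 : 200 * c (m + 16) ≤ 315 * c (m + 15) := by linarith
      refine ⟨by linarith, ?_, fun _ => ⟨r1, r2⟩⟩
      rw [show m + 15 + 1 = m + 16 by omega] at hS
      rw [hS]
      linarith

include h0 hr in
lemma S_lt (m : ℕ) (hm : 5 ≤ m) : S c (m - 5) < c m := by
  obtain ⟨c1, c2, c3, c4, c5, c6, c7, c8, c9, -⟩ := base c h0 hr
  rcases Nat.lt_or_ge m 10 with h | h
  · interval_cases m
    all_goals
      simp only [S, Finset.sum_range_succ, Finset.sum_range_zero, h0, c1, c2, c3, c4, c5, c6, c7,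
          c8, c9]
      norm_num [h0, c1, c2, c3, c4, c5, c6, c7, c8, c9, S]
  · obtain ⟨k, rfl⟩ : ∃ k, m = k + 5 := ⟨m - 5, by omega⟩
    have i0 := growth c h0 hr k
    have i1 := (growth c h0 hr (k + 1)).2.2 (by omega)
    have i2 := (growth c h0 hr (k + 2)).2.2 (by omega)
    have i3 := (growth c h0 hr (k + 3)).2.2 (by omega)
    have i4 := (growth c h0 hr (k + 4)).2.2 (by omega)
    have i5 := (growth c h0 hr (k + 5)).2.2 (by omega)
    simp only [Nat.add_sub_cancel, show k + 2 - 1 = k + 1 by omega,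
      show k + 3 - 1 = k + 2 by omega, show k + 4 - 1 = k + 3 by omega,
      show k + 5 - 1 = k + 4 by omega] at i1 i2 i3 i4 i5 ⊢
    linarith [i0.1, i0.2.1, i1.1, i2.1, i3.1, i4.1, i5.1]

end

/-- `Q1`: `(q;q)_∞ / Ψ(-q², q)` exists, is unique, and its coefficients from `q^7` on are positive. -/
theorem result :
    ∃ b : PowerSeries ℤ, b * Psi = qq ∧ (∀ b' : PowerSeries ℤ, b' * Psi = qq → b' = b) ∧
      ∀ n : ℕ, 7 ≤ n → 0 < PowerSeries.coeff n b := by
  obtain ⟨p0, p1, p2, p3, p4, p5, p6, p7, p8, p9, p10, p11, -⟩ := psi_lt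
  set C : PowerSeries ℤ := PowerSeries.invOfUnit Psi 1 with hC
  have hconst : PowerSeries.constantCoeff Psi = ((1 : ℤˣ) : ℤ) := by
    rw [← PowerSeries.coeff_zero_eq_constantCoeff_apply, Psi, PowerSeries.coeff_mk, p0]
    simp
  have hmul : Psi * C = 1 := PowerSeries.mul_invOfUnit Psi 1 hconst
  refine ⟨qq * C, by rw [mul_assoc, mul_comm C, hmul, mul_one], ?_, ?_⟩
  · intro b' hb'
    rw [← hb', mul_assoc, hmul, mul_one]
  · intro n hn
    set c : ℕ → ℤ := fun n => PowerSeries.coeff n C with hc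
    have hcoef : ∀ n, ∑ k ∈ range (n + 1), psi k * c (n - k) = if n = 0 then 1 else 0 := by
      intro n
      have h1 : PowerSeries.coeff n (Psi * C) = if n = 0 then 1 else 0 := by
        rw [hmul, PowerSeries.coeff_one]
      rw [PowerSeries.coeff_mul, Finset.Nat.sum_antidiagonal_eq_sum_range_succ_mk] at h1
      simpa [Psi, PowerSeries.coeff_mk] using h1
    have h0 : c 0 = 1 := by
      have := hcoef 0
      simpa [p0] using this
    have hr : ∀ n, 1 ≤ n → ∑ k ∈ range (n + 1), psi k * c (n - k) = 0 := by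
      intro n hn
      rw [hcoef n, if_neg (by omega)]
    have hb : PowerSeries.coeff n (qq * C) =
        ∑ k ∈ range (n + 1), PowerSeries.coeff k qq * c (n - k) := by
      rw [PowerSeries.coeff_mul, Finset.Nat.sum_antidiagonal_eq_sum_range_succ_mk]
    have hb2 : PowerSeries.coeff n (qq * C) =
        ∑ k ∈ range (n + 1), (PowerSeries.coeff k qq - psi k) * c (n - k) := by
      rw [hb, Finset.sum_congr rfl (fun k _ => sub_mul (PowerSeries.coeff k qq) (psi k) (c (n - k))),
        Finset.sum_sub_distrib, hr n (by omega), sub_zero]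
    set d : ℕ → ℤ := fun k => PowerSeries.coeff k qq - psi k with hd
    have hd2 : ∀ k, |d k| ≤ 2 := by
      intro k
      have h1 := abs_sub (PowerSeries.coeff k qq) (psi k)
      have h2 := abs_qq_le k
      have h3 := abs_psi_le k
      simp only [hd]
      linarith
    have hdv : ∀ k < 12, d k = if k = 7 then 2 else 0 := by
      intro k hk
      simp only [hd]
      rw [qq_vals k hk]
      interval_cases k <;> simp [p0, p1, p2, p3, p4, p5, p6, p7, p8, p9, p10, p11]
    have hpos : ∀ j, 0 < c j := fun j => (growth c h0 hr j).1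
    rw [hb2]
    change 0 < ∑ k ∈ range (n + 1), d k * c (n - k)
    rcases Nat.lt_or_ge n 12 with h | h
    · have h1 : ∑ k ∈ range (n + 1), d k * c (n - k) = 2 * c (n - 7) := by
        rw [Finset.sum_eq_single 7]
        · rw [hdv 7 (by norm_num)]
          simp
        · intro k hk hk7
          rw [Finset.mem_range] at hk
          rw [hdv k (by omega), if_neg hk7, zero_mul]
        · intro h7
          exact absurd (Finset.mem_range.2 (by omega)) h7
      rw [h1]
      have := hpos (n - 7)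
      linarith
    · have h2 : n + 1 = 12 + (n - 12 + 1) := by omega
      rw [h2, Finset.sum_range_add]
      have h3 : ∑ x ∈ range 12, d x * c (n - x) = 2 * c (n - 7) := by
        rw [Finset.sum_eq_single 7]
        · rw [hdv 7 (by norm_num)]
          simp
        · intro k hk hk7
          rw [Finset.mem_range] at hk
          rw [hdv k (by omega), if_neg hk7, zero_mul]
        · intro h7
          exact absurd (Finset.mem_range.2 (by omega)) h7
      have h4 := rest_bound c d 2 hd2 (n - 12) (fun j _ => (hpos j).le) 12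
      have h5 : ∑ x ∈ range (n - 12 + 1), d (12 + x) * c (n - (12 + x)) =
          ∑ x ∈ range (n - 12 + 1), d (12 + x) * c (n - 12 - x) := by
        apply Finset.sum_congr rfl
        intro x _
        rw [Nat.sub_sub]
      rw [h3, h5]
      have h6 := S_lt c h0 hr (n - 7) (by omega)
      rw [show n - 7 - 5 = n - 12 by omega] at h6
      have h7 := (abs_le.1 h4).1
      linarith

end Pool.Agent.Results.MP_d4d41d_nt.Full
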